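import Pool.Agent.W5h37.Stick.Geo

set_option autoImplicit false
open MeasureTheory ProbabilityTheory
open scoped ENNReal NNReal BigOperators Topology

/-!
# Sticks in the plane: counting the roots of bad sticks
-/

namespace Pool.Agent.W5h37.Stick

open Pool.Agent.H592

noncomputable section

theorem touches_count (a : Mark) (c : V 2) (R : ℕ) (hR : 1 ≤ R) :
    ∑' x, one? (touches (x, shp a) c R) ≤
      (((nst a / R + 1) * (4 * R + 5) ^ 2 : ℕ) : ℝ≥0∞) := by
  classical
  have h : ∀ x : V 2, one? (touches (x, shp a) c R) ≤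
      ∑ b ∈ Finset.range (nst a / R + 1),
        ind (Bx (c - cell (pos a ((b * R : ℕ) : ℝ))) (2 * R + 2)) x := by
    intro x
    by_cases hx : touches (x, shp a) c R
    · obtain ⟨z, hz, hzB⟩ := hx
      simp only at hz hzB
      unfold shp at hz
      rw [Finset.mem_biUnion] at hz
      obtain ⟨k, hk, hzk⟩ := hz
      rw [Finset.mem_range] at hk
      have hb : k / R ∈ Finset.range (nst a / R + 1) := by
        rw [Finset.mem_range]
        have := Nat.div_le_div_right (c := R) (Nat.lt_succ_iff.1 hk)
        omega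
      refine le_trans (one?_le_one _) (le_trans (le_of_eq ?_)
        (Finset.single_le_sum (f := fun b => ind (Bx (c - cell (pos a ((b * R : ℕ) : ℝ))) (2 * R + 2)) x)
          (fun _ _ => zero_le) hb))
      have hmem : x ∈ Bx (c - cell (pos a ((k / R * R : ℕ) : ℝ))) (2 * R + 2) := by
        rw [mem_Bx] at *
        intro j
        have h1 : |(k : ℝ) - ((k / R * R : ℕ) : ℝ)| ≤ (R : ℕ) := by
          have h2 : k / R * R ≤ k := Nat.div_mul_le_self k R
          have h3 : k < k / R * R + R := by
            have := Nat.div_add_mod k R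
            have h4 := Nat.mod_lt k (show 0 < R by omega)
            nlinarith [Nat.mul_comm R (k / R)]
          rw [abs_le]
          have h2' : ((k / R * R : ℕ) : ℝ) ≤ k := by exact_mod_cast h2
          have h3' : (k : ℝ) < ((k / R * R : ℕ) : ℝ) + R := by exact_mod_cast h3
          constructor <;> linarith
        have h4 := pos_close a (k : ℝ) _ R h1 j
        have h5 := hzk j
        have h6 := hzB j
        simp only [Pi.add_apply] at h6
        simp only [Pi.sub_apply]
        rw [abs_le] at *
        push_cast at *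
        constructor <;> linarith [h4.1, h4.2, h5.1, h5.2, h6.1, h6.2]
      show 1 = ind _ x
      unfold ind
      rw [if_pos hmem]
    · rw [one?_false hx]; exact zero_le
  refine (ENNReal.tsum_le_tsum h).trans ?_
  rw [Summable.tsum_finsetSum (fun _ _ => ENNReal.summable)]
  refine le_of_eq ?_
  have h2 : ∀ b ∈ Finset.range (nst a / R + 1),
      ∑' x, ind (Bx (c - cell (pos a ((b * R : ℕ) : ℝ))) (2 * R + 2)) x
        = (((4 * R + 5) ^ 2 : ℕ) : ℝ≥0∞) := by
    intro b _
    rw [tsum_ind, card_Bx]
    congr 2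
    ring
  rw [Finset.sum_congr rfl h2, Finset.sum_const, Finset.card_range, nsmul_eq_mul]
  push_cast
  ring

theorem small_shp (a : Mark) (r : ℕ) (h : nst a + 4 < r) : small r (shp a) := by
  intro z hz z' hz' j
  unfold shp at hz hz'
  rw [Finset.mem_biUnion] at hz hz'
  obtain ⟨k, hk, hz⟩ := hz
  obtain ⟨k', hk', hz'⟩ := hz'
  rw [Finset.mem_range] at hk hk'
  rw [mem_Bx] at hz hz'
  have h1 : |(k : ℝ) - (k' : ℝ)| ≤ (nst a : ℕ) := by
    have h2 : (k : ℝ) ≤ nst a := by exact_mod_cast Nat.lt_succ_iff.1 hk
    have h3 : (k' : ℝ) ≤ nst a := by exact_mod_cast Nat.lt_succ_iff.1 hk'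
    have h4 : (0 : ℝ) ≤ k := by positivity
    have h5 : (0 : ℝ) ≤ k' := by positivity
    rw [abs_le]
    constructor <;> linarith
  have h2 := pos_close a _ _ _ h1 j
  have h3 := hz j
  have h4 := hz' j
  have h5 : ((nst a : ℕ) : ℤ) + 4 < r := by exact_mod_cast h
  rw [abs_lt]
  rw [abs_le] at *
  push_cast at *
  constructor <;> linarith [h2.1, h2.2, h3.1, h3.2, h4.1, h4.2]

/-- marks whose position is in the unit square and whose length is positive -/
def Good (a : Mark) : Prop := a.1 ∈ Set.Ico (0 : ℝ) 1 ×ˢ Set.Ico (0 : ℝ) 1 ∧ 0 < a.2.1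

theorem zero_mem_shp (a : Mark) (h : Good a) : (0 : V 2) ∈ shp a := by
  refine cover a 0 le_rfl h.2.le 0 fun j => ?_
  obtain ⟨⟨h1, h2⟩, _⟩ := h
  have e1 : ⌊a.1.1⌋ = 0 := Int.floor_eq_zero_iff.2 h1
  have e2 : ⌊a.1.2⌋ = 0 := Int.floor_eq_zero_iff.2 h2
  fin_cases j <;> simp [cell, pos, e1, e2]

/-- the number of roots of bad sticks -/
theorem bad_count (a : Mark) (ha : Good a) (c : V 2) (r : ℕ) (hr : 1 ≤ r) :
    ∑' x, one? (bad c r (x, shp a)) ≤
      if r ≤ nst a + 4 then ((20402 * (r * (nst a + 4)) : ℕ) : ℝ≥0∞) else 0 := by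
  by_cases hra : r ≤ nst a + 4
  · rw [if_pos hra]
    refine (ENNReal.tsum_le_tsum fun x => one?_mono fun h => h.1).trans ?_
    refine (touches_count a c (24 * r) (by omega)).trans ?_
    have h1 : (nst a / (24 * r) + 1) * (4 * (24 * r) + 5) ^ 2 ≤ 20402 * (r * (nst a + 4)) := by
      have h2 : 4 * (24 * r) + 5 ≤ 101 * r := by omega
      have h3 : nst a / (24 * r) * r ≤ nst a := by
        have := Nat.div_mul_le_self (nst a) (24 * r)
        nlinarith [Nat.zero_le (nst a / (24 * r) * r)]
      calc (nst a / (24 * r) + 1) * (4 * (24 * r) + 5) ^ 2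
          ≤ (nst a / (24 * r) + 1) * (101 * r) ^ 2 := by gcongr
        _ = 10201 * (r * (nst a / (24 * r) * r + r)) := by ring
        _ ≤ 10201 * (r * (2 * (nst a + 4))) := by
            gcongr
            omega
        _ = _ := by ring
    exact_mod_cast h1
  · rw [if_neg hra]
    have h0 : ∀ x, one? (bad c r (x, shp a)) = 0 := by
      intro x
      refine one?_false ?_
      rintro ⟨_, h | h⟩
      · exact h (zero_mem_shp a ha)
      · exact h (small_shp a r (by omega))
    simp [h0]

/-! ### Measurability -/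

instance : MeasurableSpace (Finset (V 2)) := ⊤
instance : DiscreteMeasurableSpace (Finset (V 2)) := ⟨fun _ => trivial⟩

theorem measurable_cell : Measurable cell := by
  have h : cell = (fun n : ℤ × ℤ => (![n.1, n.2] : V 2)) ∘ fun p : ℝ × ℝ => (⌊p.1⌋, ⌊p.2⌋) := rfl
  rw [h]
  exact (measurable_of_countable _).comp
    ((Int.measurable_floor.comp measurable_fst).prodMk (Int.measurable_floor.comp measurable_snd))

theorem measurable_pos (t : ℝ) : Measurable fun a : Mark => pos a t := by
  unfold pos
  fun_prop

theorem measurable_cell_pos (k : ℕ) : Measurable fun a : Mark => cell (pos a k) :=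
  measurable_cell.comp (measurable_pos k)

theorem measurable_nst : Measurable nst := by
  unfold nst
  have h1 : Measurable fun a : Mark => ⌊a.2.1⌋₊ := Nat.measurable_floor.comp (by fun_prop)
  exact h1.add_const 1

/-- the animal with a given number of steps -/
def shn (n : ℕ) (a : Mark) : Finset (V 2) :=
  (Finset.range (n + 1)).biUnion fun k => Bx (cell (pos a k)) 2

/-- the union of the boxes around given points -/
def unb (n : ℕ) (f : Fin (n + 1) → V 2) : Finset (V 2) :=
  Finset.univ.biUnion fun k => Bx (f k) 2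

theorem shn_eq (n : ℕ) :
    shn n = unb n ∘ fun a : Mark => fun k : Fin (n + 1) => cell (pos a (k : ℕ)) := by
  funext a
  ext z
  unfold shn unb
  simp only [Finset.mem_biUnion, Finset.mem_range, Function.comp_apply, Finset.mem_univ,
    true_and]
  constructor
  · rintro ⟨k, hk, hz⟩
    exact ⟨⟨k, hk⟩, hz⟩
  · rintro ⟨k, hz⟩
    exact ⟨k, k.2, hz⟩

theorem measurable_shn (n : ℕ) : Measurable (shn n) := by
  rw [shn_eq n]
  have h2 : Measurable fun a : Mark => fun k : Fin (n + 1) => cell (pos a (k : ℕ)) := by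
    rw [measurable_pi_iff]
    exact fun k => measurable_cell_pos k
  have h3 : Measurable (unb n) := measurable_of_countable _
  exact h3.comp h2

theorem measurable_shp : Measurable shp := by
  have h4 : Measurable fun p : ℕ × Mark => shn p.1 p.2 :=
    measurable_from_prod_countable_right fun n => measurable_shn n
  have h5 : shp = (fun p : ℕ × Mark => shn p.1 p.2) ∘ fun a => (nst a, a) := rfl
  rw [h5]
  exact h4.comp (measurable_nst.prodMk measurable_id)

end

end Pool.Agent.W5h37.Stick
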