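import Mathlib
import Pool.Agent.R958.Animal

set_option autoImplicit false
open MeasureTheory ProbabilityTheory
open scoped ENNReal NNReal BigOperators Topology

/-!
# Sticks in the plane: lattice animals which cover them
-/

namespace Pool.Agent.W5h37.Stick

open Pool.Agent.H592

noncomputable section

/-- position in the unit square, length, angle -/
abbrev Mark : Type := (ℝ × ℝ) × ℝ × ℝ

/-- the cell of a point of the plane -/
def cell (p : ℝ × ℝ) : V 2 := ![⌊p.1⌋, ⌊p.2⌋]

/-- the point of the ray of the mark `a` at the time `t` -/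
def pos (a : Mark) (t : ℝ) : ℝ × ℝ := (a.1.1 + t * Real.cos a.2.2, a.1.2 + t * Real.sin a.2.2)

/-- number of steps -/
def nst (a : Mark) : ℕ := ⌊a.2.1⌋₊ + 1

/-- the covering animal -/
def shp (a : Mark) : Finset (V 2) :=
  (Finset.range (nst a + 1)).biUnion fun k => Bx (cell (pos a k)) 2

theorem floor_close {x y : ℝ} {M : ℕ} (h : |x - y| ≤ M) : |⌊x⌋ - ⌊y⌋| ≤ (M : ℤ) := by
  rw [abs_le] at *
  have h1 : x ≤ y + (M : ℤ) := by push_cast; linarith [h.2]
  have h2 : y ≤ x + (M : ℤ) := by push_cast; linarith [h.1]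
  have h3 := Int.floor_le_floor h1
  have h4 := Int.floor_le_floor h2
  rw [Int.floor_add_intCast] at h3 h4
  constructor <;> linarith

theorem cell_close {p q : ℝ × ℝ} {M : ℕ} (h1 : |p.1 - q.1| ≤ M) (h2 : |p.2 - q.2| ≤ M) (j : Fin 2) :
    |cell p j - cell q j| ≤ (M : ℤ) := by
  fin_cases j
  · exact floor_close h1
  · exact floor_close h2

theorem pos_close (a : Mark) (s t : ℝ) (M : ℕ) (h : |s - t| ≤ M) (j : Fin 2) :
    |cell (pos a s) j - cell (pos a t) j| ≤ (M : ℤ) := by
  refine cell_close ?_ ?_ j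
  · have e : (pos a s).1 - (pos a t).1 = (s - t) * Real.cos a.2.2 := by
      simp only [pos]; ring
    rw [e, abs_mul]
    calc |s - t| * |Real.cos a.2.2| ≤ |s - t| * 1 := by
          gcongr; exact Real.abs_cos_le_one _
      _ ≤ M := by rw [mul_one]; exact h
  · have e : (pos a s).2 - (pos a t).2 = (s - t) * Real.sin a.2.2 := by
      simp only [pos]; ring
    rw [e, abs_mul]
    calc |s - t| * |Real.sin a.2.2| ≤ |s - t| * 1 := by
          gcongr; exact Real.abs_sin_le_one _
      _ ≤ M := by rw [mul_one]; exact h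

/-- the animal covers the cells around the points of the stick -/
theorem cover (a : Mark) (t : ℝ) (h0 : 0 ≤ t) (ht : t ≤ a.2.1) (z : V 2)
    (hz : ∀ j, |z j - cell (pos a t) j| ≤ 1) : z ∈ shp a := by
  unfold shp
  rw [Finset.mem_biUnion]
  refine ⟨⌊t⌋₊, ?_, ?_⟩
  · rw [Finset.mem_range]
    have := Nat.floor_le_floor ht
    unfold nst
    omega
  · rw [mem_Bx]
    intro j
    have h1 : |t - (⌊t⌋₊ : ℝ)| ≤ (1 : ℕ) := by
      have h2 := Nat.floor_le h0
      have h3 := Nat.lt_floor_add_one t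
      rw [abs_le]
      push_cast
      constructor <;> linarith
    have h2 := pos_close a t (⌊t⌋₊ : ℝ) 1 h1 j
    have h3 := hz j
    rw [abs_le] at *
    push_cast at *
    constructor <;> linarith [h2.1, h2.2, h3.1, h3.2]

/-- boxes of radius one are connected -/
theorem conn_box {U : Set (V 2)} {z0 z : V 2} (hU : ∀ w : V 2, (∀ j, |w j - z0 j| ≤ 1) → w ∈ U)
    (hz : ∀ j, |z j - z0 j| ≤ 1) : conn U z0 z := by
  have h0 : z0 ∈ U := hU z0 fun j => by simp
  have hzU : z ∈ U := hU z hz
  set w : V 2 := ![z 0, z0 1] with hw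
  have hwU : w ∈ U := by
    refine hU w fun j => ?_
    fin_cases j
    · exact hz 0
    · simp [hw]
  have key : ∀ p q : V 2, p ∈ U → q ∈ U → (∑ j, |p j - q j|) ≤ 1 → conn U p q := by
    intro p q hp hq hs
    by_cases hpq : p = q
    · rw [hpq]; exact Relation.ReflTransGen.refl
    · refine Relation.ReflTransGen.single ⟨hp, hq, ?_⟩
      unfold nb
      have hpos : 0 < ∑ j, |p j - q j| := by
        obtain ⟨i, hi⟩ := Function.ne_iff.1 hpq
        have h1 : 0 < |p i - q i| := abs_pos.2 (sub_ne_zero.2 hi)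
        exact lt_of_lt_of_le h1
          (Finset.single_le_sum (f := fun j => |p j - q j|) (fun i _ => abs_nonneg _)
            (Finset.mem_univ i))
      omega
  refine Relation.ReflTransGen.trans (key z0 w h0 hwU ?_) (key w z hwU hzU ?_)
  · rw [Fin.sum_univ_two]
    have := hz 0
    rw [abs_sub_comm] at this
    simp [hw, this]
  · rw [Fin.sum_univ_two]
    have := hz 1
    rw [abs_sub_comm] at this
    simp [hw, this]

/-- a set of the plane whose points have their cells, and the cells around them, in `U` -/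
def Fat (S : Set (ℝ × ℝ)) (U : Set (V 2)) : Prop :=
  ∀ p ∈ S, ∀ z : V 2, (∀ j, |z j - cell p j| ≤ 1) → z ∈ U

theorem conn_of_connected {S : Set (ℝ × ℝ)} {U : Set (V 2)} (h : Fat S U) {C : Set (ℝ × ℝ)}
    (hCS : C ⊆ S) (hC : IsPreconnected C) {p q : ℝ × ℝ} (hp : p ∈ C) (hq : q ∈ C) :
    conn U (cell p) (cell q) := by
  refine hC.induction₂ (fun p q => conn U (cell p) (cell q)) ?_ ?_ ?_ hp hq
  · intro x hx
    have h1 : ∀ᶠ y in 𝓝 x, dist y x < 1 := Metric.ball_mem_nhds x one_pos
    filter_upwards [mem_nhdsWithin_of_mem_nhds h1, self_mem_nhdsWithin] with y hy hyC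
    refine conn_box (h x (hCS hx)) ?_
    have h2 : |y.1 - x.1| ≤ (1 : ℕ) := by
      have := (Prod.dist_eq (x := y) (y := x)) ▸ hy
      rw [max_lt_iff, Real.dist_eq, Real.dist_eq] at this
      push_cast
      exact this.1.le
    have h3 : |y.2 - x.2| ≤ (1 : ℕ) := by
      have := (Prod.dist_eq (x := y) (y := x)) ▸ hy
      rw [max_lt_iff, Real.dist_eq, Real.dist_eq] at this
      push_cast
      exact this.2.le
    intro j
    exact_mod_cast cell_close h2 h3 j
  · intro x y z _ _ _ h1 h2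
    exact Relation.ReflTransGen.trans h1 h2
  · intro x y _ _ h1
    exact conn_symm h1

theorem bounded_cell (z : V 2) : Bornology.IsBounded {p : ℝ × ℝ | cell p = z} := by
  refine (Metric.isBounded_Icc ((z 0 : ℝ), (z 1 : ℝ)) ((z 0 : ℝ) + 1, (z 1 : ℝ) + 1)).subset ?_
  intro p hp
  have h0 : ⌊p.1⌋ = z 0 := congrFun hp 0
  have h1 : ⌊p.2⌋ = z 1 := congrFun hp 1
  rw [Set.mem_Icc, Prod.le_def, Prod.le_def]
  simp only
  rw [← h0, ← h1]
  exact ⟨⟨Int.floor_le _, Int.floor_le _⟩, (Int.lt_floor_add_one _).le, (Int.lt_floor_add_one _).le⟩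

/-- an unbounded connected set gives an infinite cluster -/
theorem perc_of_unbounded {S : Set (ℝ × ℝ)} {U : Set (V 2)} (h : Fat S U) {C : Set (ℝ × ℝ)}
    (hCS : C ⊆ S) (hC : IsPreconnected C) (hb : ¬ Bornology.IsBounded C) : perc U := by
  have hne : C.Nonempty := by
    by_contra hcon
    rw [Set.not_nonempty_iff_eq_empty] at hcon
    exact hb (hcon ▸ Bornology.isBounded_empty)
  obtain ⟨p, hp⟩ := hne
  refine ⟨cell p, fun hfin => hb ?_⟩
  have h1 : C ⊆ ⋃ z ∈ {z | conn U (cell p) z}, {q : ℝ × ℝ | cell q = z} := by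
    intro q hq
    rw [Set.mem_iUnion₂]
    exact ⟨cell q, conn_of_connected h hCS hC hp hq, rfl⟩
  exact ((Bornology.isBounded_biUnion hfin).2 fun z _ => bounded_cell z).subset h1

/-- a connected set with points in infinitely many cells gives an infinite cluster -/
theorem perc_of_cells {S : Set (ℝ × ℝ)} {U : Set (V 2)} (h : Fat S U) {C : Set (ℝ × ℝ)}
    (hCS : C ⊆ S) (hC : IsPreconnected C) (hb : (cell '' C).Infinite) : perc U := by
  obtain ⟨_, p, hp, rfl⟩ := hb.nonempty
  refine ⟨cell p, hb.mono ?_⟩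
  rintro _ ⟨q, hq, rfl⟩
  exact conn_of_connected h hCS hC hp hq

end

end Pool.Agent.W5h37.Stick
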